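import Mathlib
import Pool.Agent.H38.LR.S8.H307R2.OP.BT4
import Pool.Agent.H38.LR.S8.Erdos456.SieveB

set_option autoImplicit false

/-!
# The Brun-Titchmarsh inequality with the constant `2 + ε`, uniformly in the modulus
-/

namespace Pool.Agent.H617R3.BT

open Finset Pool.Agent.Helper923.PPS

theorem prod_le_card (S : Finset ℕ) (hS : ∀ p ∈ S, 2 ≤ p) :
    ∏ p ∈ S, (1 - (p : ℝ)⁻¹)⁻¹ ≤ (S.card : ℝ) + 1 := by
  classical
  induction S using Finset.induction_on_max with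
  | empty => simp
  | insert a T hmax ih =>
    have ih' := ih fun p hp => hS p (Finset.mem_insert_of_mem hp)
    have ha : a ∉ T := fun h => lt_irrefl a (hmax a h)
    rw [Finset.prod_insert ha, Finset.card_insert_of_notMem ha]
    have hcard : T.card + 2 ≤ a := by
      have h1 : T ⊆ Finset.Ico 2 a := by
        intro x hx
        rw [Finset.mem_Ico]
        exact ⟨hS x (Finset.mem_insert_of_mem hx), hmax x hx⟩
      have h2 := Finset.card_le_card h1
      rw [Nat.card_Ico] at h2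
      have h3 := hS a (Finset.mem_insert_self _ _)
      omega
    have hc : ((T.card : ℝ) + 2) ≤ a := by exact_mod_cast hcard
    have hT0 : (0 : ℝ) ≤ T.card := Nat.cast_nonneg _
    have hapos : (0 : ℝ) < a := by linarith
    have h1 : (1 - (a : ℝ)⁻¹)⁻¹ ≤ ((T.card : ℝ) + 2) / (T.card + 1) := by
      rw [inv_le_comm₀ (by
        have : (a : ℝ)⁻¹ < 1 := inv_lt_one_of_one_lt₀ (by linarith)
        linarith) (by positivity)]
      have h2 : (a : ℝ)⁻¹ ≤ ((T.card : ℝ) + 2)⁻¹ := by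
        apply inv_anti₀ (by positivity) hc
      have h3 : (((T.card : ℝ) + 2) / (T.card + 1))⁻¹ = 1 - ((T.card : ℝ) + 2)⁻¹ := by
        field_simp
        ring
      rw [h3]
      linarith
    have h0 : 0 ≤ ∏ p ∈ T, (1 - (p : ℝ)⁻¹)⁻¹ := by
      apply Finset.prod_nonneg
      intro p hp
      have : 2 ≤ p := hS p (Finset.mem_insert_of_mem hp)
      have : (2 : ℝ) ≤ p := by exact_mod_cast this
      have : (p : ℝ)⁻¹ < 1 := inv_lt_one_of_one_lt₀ (by linarith)
      exact inv_nonneg.2 (by linarith)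
    calc (1 - (a : ℝ)⁻¹)⁻¹ * ∏ p ∈ T, (1 - (p : ℝ)⁻¹)⁻¹
        ≤ ((T.card : ℝ) + 2) / (T.card + 1) * ((T.card : ℝ) + 1) := by gcongr
      _ = ((T.card : ℝ) + 2) := by field_simp
      _ = _ := by push_cast; ring

theorem card_primeFactors_le {d : ℕ} (hd : d ≠ 0) :
    (d.primeFactors.card : ℝ) ≤ Real.log d / Real.log 2 := by
  have h1 : 2 ^ d.primeFactors.card ≤ d := by
    calc 2 ^ d.primeFactors.card = ∏ _p ∈ d.primeFactors, 2 := by
          rw [Finset.prod_const]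
      _ ≤ ∏ p ∈ d.primeFactors, p :=
          Finset.prod_le_prod' fun p hp => (Nat.prime_of_mem_primeFactors hp).two_le
      _ ≤ d := Nat.le_of_dvd (Nat.pos_of_ne_zero hd) (Nat.prod_primeFactors_dvd d)
  have h2 : Real.log ((2 : ℝ) ^ d.primeFactors.card) ≤ Real.log d := by
    apply Real.log_le_log (by positivity)
    exact_mod_cast h1
  rw [Real.log_pow] at h2
  rw [le_div_iff₀ (Real.log_pos (by norm_num))]
  exact h2

/-- sieve bound for arithmetic progressions -/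
theorem core (a q N R : ℕ) (hq : 1 ≤ q) (hR : 1 ≤ R) :
    (((range N).filter (fun t => (a + t * q).Prime)).card : ℝ) ≤
      ((q : ℝ) / Nat.totient q) * N / Real.log ((R : ℝ) + 1) +
        1 * ((R : ℝ) * (1 + Real.log R / Real.log 2)) ^ 2 + (R + 1) := by
  classical
  set s := apSieve a q N R with hs
  have hlogR : 0 ≤ Real.log R := Real.log_nonneg (by exact_mod_cast hR)
  have hl2 : 0 < Real.log 2 := Real.log_pos (by norm_num)
  have hq' : (0 : ℝ) < q := by exact_mod_cast hq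
  have ht' : (0 : ℝ) < Nat.totient q := by exact_mod_cast Nat.totient_pos.2 hq
  have hsel := Pool.Agent.Erdos456.SieveAux.selberg_bound (s := s) R hR
    (A := 1 + Real.log R / Real.log 2) (B := 1) (by positivity) zero_le_one
    (by
      intro d hd hdR
      have hd' := Nat.dvd_of_mem_divisors hd
      have hd0 : d ≠ 0 := (Nat.pos_of_mem_divisors hd).ne'
      rw [BoundingSieve.selbergTerms_apply]
      change ((d : ℝ)⁻¹ * ∏ p ∈ d.primeFactors, (1 - (p : ℝ)⁻¹)⁻¹) / (d : ℝ)⁻¹ ≤ _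
      have hdr : (d : ℝ) ≠ 0 := by exact_mod_cast hd0
      rw [mul_div_assoc, mul_comm, div_mul_cancel₀ _ (inv_ne_zero hdr)]
      refine (prod_le_card _ fun p hp => (Nat.prime_of_mem_primeFactors hp).two_le).trans ?_
      have h1 := card_primeFactors_le hd0
      have h2 : Real.log d ≤ Real.log R := by
        apply Real.log_le_log (by exact_mod_cast Nat.pos_of_ne_zero hd0)
        exact_mod_cast hdR
      have h3 : Real.log d / Real.log 2 ≤ Real.log R / Real.log 2 := by gcongr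
      linarith)
    (by
      intro d hd _
      exact apSieve_rem hq (Nat.dvd_of_mem_divisors hd))
  have hJ : ((Nat.totient q : ℝ) / q) * Real.log ((R : ℝ) + 1) ≤
      Pool.Agent.Erdos456.SieveAux.JJ s R := by
    have h1 := Pool.Agent.H307R2.OP.BT4P.selS_ge2 (a := a) (q := q) (N := N) (R := R) hq
    refine h1.trans (le_of_eq ?_)
    unfold selS Pool.Agent.Erdos456.SieveAux.JJ
    apply Finset.sum_congr _ fun _ _ => rfl
    ext l
    simp only [Finset.mem_filter, Nat.cast_le]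
    rfl
  have hlog : 0 < Real.log ((R : ℝ) + 1) := Real.log_pos (by
    have : (1 : ℝ) ≤ R := by exact_mod_cast hR
    linarith)
  have hmass : s.totalMass / Pool.Agent.Erdos456.SieveAux.JJ s R ≤
      ((q : ℝ) / Nat.totient q) * N / Real.log ((R : ℝ) + 1) := by
    change (N : ℝ) / _ ≤ _
    refine (div_le_div_of_nonneg_left (Nat.cast_nonneg _) (by positivity) hJ).trans (le_of_eq ?_)
    field_simp
  have hcard := sifted_ge (a := a) (q := q) (N := N) (R := R) hq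
  linarith

theorem bt2 (ε : ℝ) (hε : 0 < ε) : ∃ N₀ : ℕ, 3 ≤ N₀ ∧ ∀ a q N : ℕ, 1 ≤ q → N₀ ≤ N →
    (((range N).filter (fun t => (a + t * q).Prime)).card : ℝ) ≤
      (2 + ε) * ((q : ℝ) / Nat.totient q) * N / Real.log N := by
  obtain ⟨e, he, he1, heε⟩ : ∃ e : ℝ, 0 < e ∧ e ≤ 1 ∧ e ≤ ε :=
    ⟨min ε 1, by positivity, min_le_right _ _, min_le_left _ _⟩
  obtain ⟨c, hc⟩ : ∃ c : ℝ, c = e / 16 := ⟨_, rfl⟩
  have hc0 : 0 < c := by rw [hc]; positivity
  have hc1 : c ≤ 1 / 16 := by rw [hc]; linarith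
  have hev : ∀ᶠ x : ℝ in Filter.atTop, 24 * Real.log x ^ 3 ≤ e * x ^ (2 * c) := by
    have h1 := (isLittleO_log_rpow_rpow_atTop (3 : ℝ) (show 0 < 2 * c by positivity)).bound
      (show 0 < e / 24 by positivity)
    filter_upwards [h1, Filter.eventually_ge_atTop (1 : ℝ)] with x hx hx1
    have hl : 0 ≤ Real.log x := Real.log_nonneg hx1
    rw [Real.norm_of_nonneg (by positivity), Real.norm_of_nonneg (by positivity)] at hx
    have h2 : Real.log x ^ (3 : ℝ) = Real.log x ^ 3 := by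
      rw [← Real.rpow_natCast]; norm_num
    rw [h2] at hx
    linarith
  have hev2 := (tendsto_natCast_atTop_atTop (R := ℝ)).eventually hev
  obtain ⟨Y₁, hY₁⟩ := Filter.eventually_atTop.1 hev2
  refine ⟨max Y₁ 3, by omega, ?_⟩
  intro A q Y hq hY
  have hq' : (0 : ℝ) < q := by exact_mod_cast hq
  have ht' : (0 : ℝ) < Nat.totient q := by exact_mod_cast Nat.totient_pos.2 hq
  obtain ⟨K, hK⟩ : ∃ K : ℝ, K = (q : ℝ) / Nat.totient q := ⟨_, rfl⟩
  have hK1 : 1 ≤ K := by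
    rw [hK, le_div_iff₀ ht', one_mul]
    exact_mod_cast Nat.totient_le q
  have hYY : Y₁ ≤ Y := by omega
  have hY3 : 3 ≤ Y := by omega
  have h24 := hY₁ Y hYY
  obtain ⟨y, hy⟩ : ∃ y : ℝ, y = (Y : ℝ) := ⟨_, rfl⟩
  rw [← hy] at h24 ⊢
  rw [← hK]
  have hy3 : (3 : ℝ) ≤ y := by rw [hy]; exact_mod_cast hY3
  have hy0 : 0 < y := by linarith
  obtain ⟨L, hL⟩ : ∃ L : ℝ, L = Real.log y := ⟨_, rfl⟩
  rw [← hL] at h24 ⊢
  have hL1 : 1 ≤ L := by
    rw [hL, Real.le_log_iff_exp_le hy0]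
    exact (Real.exp_one_lt_d9.le.trans (by norm_num)).trans hy3
  obtain ⟨x, hx⟩ : ∃ x : ℝ, x = y ^ (1 / 2 - c) := ⟨_, rfl⟩
  have hx0 : 0 < x := by rw [hx]; positivity
  have hx1 : 1 ≤ x := by
    rw [hx]; exact Real.one_le_rpow (by linarith) (by linarith)
  have hlogx : Real.log x = (1 / 2 - c) * L := by rw [hx, Real.log_rpow hy0, hL]
  have hR : 1 ≤ ⌊x⌋₊ := Nat.floor_pos.mpr hx1
  have hfl : (⌊x⌋₊ : ℝ) ≤ x := Nat.floor_le hx0.le
  have hfl2 : x < (⌊x⌋₊ : ℝ) + 1 := Nat.lt_floor_add_one x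
  have hR1 : (1 : ℝ) ≤ (⌊x⌋₊ : ℝ) := by exact_mod_cast hR
  have hmain := core A q Y ⌊x⌋₊ hq hR
  rw [← hy, ← hK] at hmain
  have hl2 : 0.6931471803 < Real.log 2 := Real.log_two_gt_d9
  have hlR : Real.log ⌊x⌋₊ ≤ L / 2 := by
    have h1 := Real.log_le_log (by linarith) hfl
    rw [hlogx] at h1
    nlinarith
  have hlR0 : 0 ≤ Real.log ⌊x⌋₊ := Real.log_nonneg hR1
  have hA : 1 + Real.log ⌊x⌋₊ / Real.log 2 ≤ 2 * L := by
    have h1 : Real.log ⌊x⌋₊ / Real.log 2 ≤ L := by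
      rw [div_le_iff₀ (by linarith)]
      nlinarith
    linarith
  have hA1 : 1 ≤ 1 + Real.log ⌊x⌋₊ / Real.log 2 := by
    have : 0 ≤ Real.log ⌊x⌋₊ / Real.log 2 := by positivity
    linarith
  obtain ⟨Q, hQ⟩ : ∃ Q : ℝ, Q = (⌊x⌋₊ : ℝ) * (1 + Real.log ⌊x⌋₊ / Real.log 2) := ⟨_, rfl⟩
  rw [← hQ] at hmain
  have hQ1 : (⌊x⌋₊ : ℝ) ≤ Q := by
    rw [hQ]; exact le_mul_of_one_le_right (by linarith) hA1
  have hQ2 : Q ≤ x * (2 * L) := by
    rw [hQ]; exact mul_le_mul hfl hA (by linarith) hx0.le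
  have hQ0 : 1 ≤ Q := hR1.trans hQ1
  have herr : 1 * Q ^ 2 + ((⌊x⌋₊ : ℝ) + 1) ≤ 3 * (x * (2 * L)) ^ 2 := by
    have h1 : Q ^ 2 ≤ (x * (2 * L)) ^ 2 := pow_le_pow_left₀ (by linarith) hQ2 2
    nlinarith
  have hxx : x ^ 2 * y ^ (2 * c) = y := by
    rw [hx, ← Real.rpow_natCast, ← Real.rpow_mul hy0.le, ← Real.rpow_add hy0]
    have : (1 / 2 - c) * ((2 : ℕ) : ℝ) + 2 * c = 1 := by push_cast; ring
    rw [this, Real.rpow_one]
  have herr2 : 3 * (x * (2 * L)) ^ 2 ≤ e / 2 * y / L := by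
    rw [le_div_iff₀ (by linarith)]
    calc 3 * (x * (2 * L)) ^ 2 * L = x ^ 2 / 2 * (24 * L ^ 3) := by ring
      _ ≤ x ^ 2 / 2 * (e * y ^ (2 * c)) := by gcongr
      _ = e / 2 * (x ^ 2 * y ^ (2 * c)) := by ring
      _ = e / 2 * y := by rw [hxx]
  have hlog2 : (1 / 2 - c) * L ≤ Real.log ((⌊x⌋₊ : ℝ) + 1) := by
    rw [← hlogx]; exact Real.log_le_log hx0 hfl2.le
  have hpos : 0 < (1 / 2 - c) * L := mul_pos (by linarith) (by linarith)
  have hm1 : K * y / Real.log ((⌊x⌋₊ : ℝ) + 1) ≤ (2 + e / 2) * (K * y) / L := by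
    have hKy : 0 ≤ K * y := by positivity
    have h1 : K * y / Real.log ((⌊x⌋₊ : ℝ) + 1) ≤ K * y / ((1 / 2 - c) * L) :=
      div_le_div_of_nonneg_left hKy hpos hlog2
    refine h1.trans ?_
    rw [div_le_div_iff₀ hpos (by linarith)]
    have h2 : 1 ≤ (2 + e / 2) * (1 / 2 - c) := by rw [hc]; nlinarith
    calc K * y * L = 1 * (K * y * L) := by ring
      _ ≤ (2 + e / 2) * (1 / 2 - c) * (K * y * L) := by gcongr
      _ = _ := by ring
  have hKy1 : e / 2 * y / L ≤ e / 2 * (K * y) / L := by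
    apply div_le_div_of_nonneg_right _ (by linarith)
    have : y ≤ K * y := le_mul_of_one_le_left hy0.le hK1
    nlinarith
  have hfin : (2 + e / 2) * (K * y) / L + e / 2 * (K * y) / L ≤ (2 + ε) * K * y / L := by
    rw [← add_div]
    apply div_le_div_of_nonneg_right _ (by linarith)
    have : 0 ≤ K * y := by positivity
    nlinarith
  linarith

end Pool.Agent.H617R3.BT
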